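import Pool.Agent.Helper38.SG.RepA

/-! # Sobolev gap, piece REP2 -/

open Filter Topology Set MeasureTheory
open scoped RealInnerProductSpace ContDiff

universe u

namespace Pool.Agent.Helper54.SG

open Pool.Agent.Helper38.SG

/-- The operator `lt k` as a linear map on functions. -/
def ltLin {G : Type*} [Group G] {F : Type*} [AddCommGroup F] [Module ℂ F] (k : G) :
    (G → F) →ₗ[ℂ] (G → F) where
  toFun f := fun x => f (k⁻¹ * x)
  map_add' _ _ := rfl
  map_smul' _ _ := rfl

/-- REP2: a continuous left `K`-finite function is smooth along `K`-orbits. -/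
theorem kfinite_smooth {G 𝔤 : Type u} [Group G] [TopologicalSpace G] [IsTopologicalGroup G]
    [NormedAddCommGroup 𝔤] [InnerProductSpace ℝ 𝔤] [FiniteDimensional ℝ 𝔤] (P : ParData G 𝔤)
    {F : Type*} [NormedAddCommGroup F] [NormedSpace ℂ F] [FiniteDimensional ℂ F]
    (f : G → F) (hf : Continuous f) (hK : KFinite P f) (x : G) :
    ContDiff ℝ ∞ fun Z : P.𝔨 => f (P.exp (Z : 𝔤) * x) := by
  obtain ⟨W, hWfin, hfW, hWK⟩ := hK
  -- the span of the translates
  let S : Set (G → F) := {w | ∃ k ∈ P.K, w = lt k f}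
  let W' : Submodule ℂ (G → F) := Submodule.span ℂ S
  have hW'W : W' ≤ W := by
    refine Submodule.span_le.2 ?_
    rintro w ⟨k, hk, rfl⟩
    exact hWK k hk f hfW
  have hW'fin : FiniteDimensional ℂ W' := Submodule.finiteDimensional_of_le hW'W
  have hfW' : f ∈ W' := Submodule.subset_span ⟨1, P.K.one_mem, (lt_one f).symm⟩
  have hcont : ∀ w ∈ W', Continuous w := by
    intro w hw
    induction hw using Submodule.span_induction with
    | mem w hw =>
      obtain ⟨k, hk, rfl⟩ := hw
      exact hf.comp (continuous_const.mul continuous_id)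
    | zero => exact continuous_const
    | add a b _ _ ha hb => exact ha.add hb
    | smul c a _ ha => exact ha.const_smul c
  have hstab : ∀ k ∈ P.K, ∀ w ∈ W', lt k w ∈ W' := by
    intro k hk w hw
    induction hw using Submodule.span_induction with
    | mem w hw =>
      obtain ⟨k', hk', rfl⟩ := hw
      refine Submodule.subset_span ⟨k * k', P.K.mul_mem hk hk', ?_⟩
      rw [lt_lt]
    | zero => exact W'.zero_mem
    | add a b _ _ ha hb => exact W'.add_mem ha hb
    | smul c a _ ha => exact W'.smul_mem c ha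
  let n := Module.finrank ℂ W'
  let e : W' ≃ₗ[ℂ] (Fin n → ℂ) := LinearEquiv.ofFinrankEq _ _ (by simp [n])
  let π₀ : ∀ k : P.K, W' →ₗ[ℂ] W' := fun k =>
    (ltLin (k : G)).restrict (fun w hw => hstab k k.2 w hw)
  have hπ₀ : ∀ (k : P.K) (w : W'), ((π₀ k w : W') : G → F) = lt (k : G) (w : G → F) :=
    fun k w => rfl
  let π : P.K →* ((Fin n → ℂ) →ₗ[ℂ] (Fin n → ℂ)) :=
    { toFun := fun k => e.toLinearMap ∘ₗ π₀ k ∘ₗ e.symm.toLinearMap
      map_one' := by
        refine LinearMap.ext fun w => ?_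
        have h1 : π₀ 1 (e.symm w) = e.symm w := by
          apply Subtype.ext
          rw [hπ₀]
          exact lt_one _
        simp [h1]
      map_mul' := fun a b => by
        refine LinearMap.ext fun w => ?_
        have h1 : π₀ (a * b) (e.symm w) = π₀ a (π₀ b (e.symm w)) := by
          apply Subtype.ext
          rw [hπ₀, hπ₀, hπ₀, lt_lt]
          rfl
        simp [h1] }
  have hπ : ∀ w, Continuous fun k => π k w := by
    intro v
    have h1 : Continuous fun k : P.K => π₀ k (e.symm v) := by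
      refine Continuous.subtype_mk ?_ _
      refine continuous_pi fun y => ?_
      exact (hcont _ (e.symm v).2).comp (continuous_subtype_val.inv.mul continuous_const)
    exact (LinearMap.continuous_of_finiteDimensional e.toLinearMap).comp h1
  obtain ⟨A, hA⟩ := exists_dRep P π hπ
  -- evaluation at `x`
  let ev : (Fin n → ℂ) →ₗ[ℂ] F :=
    (LinearMap.proj x : (G → F) →ₗ[ℂ] F) ∘ₗ W'.subtype ∘ₗ e.symm.toLinearMap
  let v : Fin n → ℂ := e ⟨f, hfW'⟩
  have key : ∀ Z : P.𝔨, f (P.exp (Z : 𝔤) * x) = ev (NormedSpace.exp (A (-Z)) v) := by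
    intro Z
    rw [← hA]
    have h1 : (e.symm (π ⟨P.exp ((-Z : P.𝔨) : 𝔤), ParData.exp_mem (-Z)⟩ v) : G → F) =
        lt (P.exp ((-Z : P.𝔨) : 𝔤)) f := by
      simp only [π, v, MonoidHom.coe_mk, OneHom.coe_mk, LinearMap.comp_apply,
        LinearEquiv.coe_coe, LinearEquiv.symm_apply_apply]
      rw [hπ₀]
    change _ = (e.symm (π ⟨P.exp ((-Z : P.𝔨) : 𝔤), ParData.exp_mem (-Z)⟩ v) : G → F) x
    rw [h1]
    simp only [lt, Submodule.coe_neg, LieData.exp_neg, inv_inv]
  simp only [key]
  let evL : (Fin n → ℂ) →L[ℂ] F := LinearMap.toContinuousLinearMap ev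
  let E := (Fin n → ℂ) →L[ℂ] (Fin n → ℂ)
  have hexp : ContDiff ℝ ∞ (NormedSpace.exp : E → E) := by
    have h : AnalyticOnNhd ℝ (NormedSpace.exp : E → E) univ := fun T _ => by
      have := NormedSpace.exp_analytic (𝕂 := ℝ) (𝔸 := E) T
      exact this
    exact contDiffOn_univ.1 (h.contDiffOn uniqueDiffOn_univ)
  have hA' : ContDiff ℝ ∞ fun Z : P.𝔨 => A (-Z) := by
    have := (LinearMap.toContinuousLinearMap A).contDiff (n := ∞)
    exact this.comp contDiff_neg
  have h2 : ContDiff ℝ ∞ fun Z : P.𝔨 => NormedSpace.exp (A (-Z)) := hexp.comp hA'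
  let app : E →L[ℝ] F :=
    (evL.restrictScalars ℝ).comp
      ((ContinuousLinearMap.apply ℂ (Fin n → ℂ) v).restrictScalars ℝ)
  exact app.contDiff.comp h2

end Pool.Agent.Helper54.SG
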