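import Mathlib

/-! # Sobolev gap, piece HAAR -/

open Filter Topology Set MeasureTheory
open scoped RealInnerProductSpace ContDiff

universe u

namespace Pool.Agent.Helper54.SG

/-- HAAR: invariant probability measure on a compact group. -/
theorem exists_haar (K : Type*) [Group K] [TopologicalSpace K] [IsTopologicalGroup K]
    [CompactSpace K] [T2Space K] [MeasurableSpace K] [BorelSpace K] :
    ∃ μ : Measure K, IsProbabilityMeasure μ ∧ μ.IsMulLeftInvariant ∧ μ.IsMulRightInvariant ∧
      μ.IsInvInvariant ∧ μ.IsOpenPosMeasure := by
  let μ : Measure K := Measure.haarMeasure (⊤ : TopologicalSpace.PositiveCompacts K)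
  have hp : IsProbabilityMeasure μ := ⟨by
    have h := Measure.haarMeasure_self (K₀ := (⊤ : TopologicalSpace.PositiveCompacts K))
    simpa using h⟩
  have hr : μ.IsMulRightInvariant := ⟨fun g => by
    have h1 : IsProbabilityMeasure (Measure.map (· * g) μ) :=
      Measure.isProbabilityMeasure_map (measurable_mul_const g).aemeasurable
    have h2 : (Measure.map (· * g) μ).IsMulLeftInvariant := inferInstance
    have h3 : (Measure.map (· * g) μ).IsHaarMeasure :=
      Measure.isHaarMeasure_of_isCompact_nonempty_interior _ univ
        isCompact_univ (by simp) (by simp) (by simp)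
    exact Measure.isHaarMeasure_eq_of_isProbabilityMeasure _ _⟩
  have hi : μ.IsInvInvariant := ⟨by
    have h1 : IsProbabilityMeasure μ.inv :=
      Measure.isProbabilityMeasure_map measurable_inv.aemeasurable
    have h2 : μ.inv.IsMulLeftInvariant := inferInstance
    have h3 : μ.inv.IsHaarMeasure := Measure.isHaarMeasure_of_isCompact_nonempty_interior _ univ
      isCompact_univ (by simp) (by simp) (by simp)
    exact Measure.isHaarMeasure_eq_of_isProbabilityMeasure _ _⟩
  exact ⟨μ, hp, inferInstance, hr, hi, inferInstance⟩

end Pool.Agent.Helper54.SG
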