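import Mathlib
import Pool.Agent.Helper38.SG.CasDefs
import Pool.Agent.Helper38.SG.InvB
import Pool.Agent.Helper38.SG.SmoB
import Pool.Agent.Helper54.SG.Haar

/-! # Sobolev gap, piece CAS-B: Casimir operators -/

open Filter Topology Set MeasureTheory
open scoped RealInnerProductSpace ContDiff

universe u

set_option linter.unusedSectionVars false
set_option linter.style.haveILetI false

namespace Pool.Agent.Helper54.SG

open Pool.Agent.Helper38.SG

/-- Spectral decomposition for a positive symmetric operator, abstract form. -/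
theorem spectral_abs {E : Type*} [AddCommGroup E] [Module ℂ E] [FiniteDimensional ℂ E]
    (c : InnerProductSpace.Core ℂ E) (T : E →ₗ[ℂ] E)
    (hs : ∀ x y, c.inner (T x) y = c.inner x (T y))
    (hp : ∀ x, 0 ≤ (c.inner (T x) x).re) (w : E) :
    ∃ (s : Finset ℝ) (g : ℝ → E), (∀ μ ∈ s, 0 ≤ μ) ∧
      (∀ μ ∈ s, T (g μ) = (μ : ℂ) • g μ) ∧ w = ∑ μ ∈ s, g μ := by
  letI : NormedAddCommGroup E := c.toNormedAddCommGroup
  letI : InnerProductSpace ℂ E := InnerProductSpace.ofCore c.toCore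
  have hT : T.IsSymmetric := fun x y => hs x y
  let n := Module.finrank ℂ E
  let b := hT.eigenvectorBasis (rfl : Module.finrank ℂ E = n)
  let ev := hT.eigenvalues (rfl : Module.finrank ℂ E = n)
  have hb : ∀ i, T (b i) = (ev i : ℂ) • b i := fun i => hT.apply_eigenvectorBasis rfl i
  refine ⟨Finset.univ.image ev, fun μ => ∑ i ∈ Finset.univ.filter (fun i => ev i = μ),
    b.repr w i • b i, ?_, ?_, ?_⟩
  · intro μ hμ
    obtain ⟨i, -, rfl⟩ := Finset.mem_image.1 hμ
    have h1 := hp (b i)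
    have h2 : c.inner (T (b i)) (b i) = inner ℂ (T (b i)) (b i) := rfl
    rw [h2, hb i, inner_smul_left] at h1
    have h3 : (inner ℂ (b i) (b i) : ℂ) = 1 := by
      rw [inner_self_eq_norm_sq_to_K, b.norm_eq_one]; simp
    rw [h3] at h1
    simpa using h1
  · intro μ _
    rw [map_sum, Finset.smul_sum]
    refine Finset.sum_congr rfl fun i hi => ?_
    rw [(Finset.mem_filter.1 hi).2.symm, map_smul, hb i, smul_comm]
  · rw [Finset.sum_fiberwise_of_maps_to (fun i _ => Finset.mem_image_of_mem ev (Finset.mem_univ i))]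
    exact (b.sum_repr w).symm

variable {G 𝔤 : Type u} [Group G] [TopologicalSpace G] [IsTopologicalGroup G] [T2Space G]
  [NormedAddCommGroup 𝔤] [InnerProductSpace ℝ 𝔤] [FiniteDimensional ℝ 𝔤] {P : ParData G 𝔤}
  {U : Type u} [NormedAddCommGroup U] [InnerProductSpace ℂ U] [FiniteDimensional ℂ U]
  {R : RepData P U}

theorem compactSpace_K (P : ParData G 𝔤) : CompactSpace P.K :=
  isCompact_iff_compactSpace.1 P.isCompact_K

section pairing

variable [MeasurableSpace P.K] [BorelSpace P.K] (μ : Measure P.K) [IsProbabilityMeasure μ]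

omit [FiniteDimensional ℝ 𝔤] [T2Space G] [FiniteDimensional ℂ U] in
theorem integrable_inner {h f : G → U} (hh : Continuous h) (hf : Continuous f) :
    Integrable (fun k : P.K => (inner ℂ (h k) (f k) : ℂ)) μ := by
  haveI : CompactSpace P.K := isCompact_iff_compactSpace.1 P.isCompact_K
  have hc : Continuous (fun k : P.K => (inner ℂ (h k) (f k) : ℂ)) :=
    (hh.comp continuous_subtype_val).inner (hf.comp continuous_subtype_val)
  exact hc.integrable_of_hasCompactSupport (HasCompactSupport.of_compactSpace _)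

omit [FiniteDimensional ℝ 𝔤] [T2Space G] [FiniteDimensional ℂ U] in
theorem pair_add_left {h h' f : G → U} (hh : Continuous h) (hh' : Continuous h')
    (hf : Continuous f) : pair μ (h + h') f = pair μ h f + pair μ h' f := by
  unfold pair
  rw [← integral_add (integrable_inner μ hh hf) (integrable_inner μ hh' hf)]
  refine integral_congr_ae (ae_of_all _ fun k => ?_)
  simp only [Pi.add_apply, inner_add_left]

omit [FiniteDimensional ℝ 𝔤] [T2Space G] [FiniteDimensional ℂ U] [BorelSpace P.K]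
  [IsProbabilityMeasure μ] in
theorem pair_smul_left {h f : G → U} (a : ℂ) :
    pair μ (a • h) f = (starRingEnd ℂ) a * pair μ h f := by
  unfold pair
  rw [← integral_const_mul]
  refine integral_congr_ae (ae_of_all _ fun k => ?_)
  simp only [Pi.smul_apply, inner_smul_left]

omit [FiniteDimensional ℝ 𝔤] [T2Space G] [FiniteDimensional ℂ U] [BorelSpace P.K]
  [IsProbabilityMeasure μ] in
theorem pair_conj (h f : G → U) : (starRingEnd ℂ) (pair μ f h) = pair μ h f := by
  unfold pair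
  rw [← integral_conj]
  refine integral_congr_ae (ae_of_all _ fun k => ?_)
  exact inner_conj_symm _ _

omit [FiniteDimensional ℝ 𝔤] [T2Space G] [FiniteDimensional ℂ U] in
theorem pair_add_right {h f f' : G → U} (hh : Continuous h) (hf : Continuous f)
    (hf' : Continuous f') : pair μ h (f + f') = pair μ h f + pair μ h f' := by
  rw [← pair_conj, pair_add_left μ hf hf' hh, map_add, pair_conj, pair_conj]

omit [FiniteDimensional ℝ 𝔤] [T2Space G] [FiniteDimensional ℂ U] [BorelSpace P.K]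
  [IsProbabilityMeasure μ] in
theorem pair_smul_right {h f : G → U} (a : ℂ) : pair μ h (a • f) = a * pair μ h f := by
  rw [← pair_conj, pair_smul_left, map_mul, Complex.conj_conj, pair_conj]

omit [FiniteDimensional ℝ 𝔤] [T2Space G] [FiniteDimensional ℂ U] [BorelSpace P.K]
  [IsProbabilityMeasure μ] in
theorem pair_self (h : G → U) : pair μ h h = ((∫ k : P.K, ‖h k‖ ^ 2 ∂μ : ℝ) : ℂ) := by
  unfold pair
  have h1 := integral_ofReal (𝕜 := ℂ) (μ := μ) (f := fun k : P.K => ‖h k‖ ^ 2)
  refine Eq.trans ?_ h1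
  refine integral_congr_ae (ae_of_all _ fun k => ?_)
  simp only [inner_self_eq_norm_sq_to_K]
  push_cast
  rfl

omit [FiniteDimensional ℂ U] in
theorem eq_zero_of_pair_self [μ.IsOpenPosMeasure] {h : G → U} (hh : h ∈ V R)
    (h0 : pair μ h h = 0) : h = 0 := by
  haveI : CompactSpace P.K := isCompact_iff_compactSpace.1 P.isCompact_K
  rw [pair_self, Complex.ofReal_eq_zero] at h0
  have hc : Continuous (fun k : P.K => ‖h k‖ ^ 2) :=
    (hh.1.comp continuous_subtype_val).norm.pow 2
  have hi : Integrable (fun k : P.K => ‖h k‖ ^ 2) μ :=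
    hc.integrable_of_hasCompactSupport (HasCompactSupport.of_compactSpace _)
  rw [integral_eq_zero_iff_of_nonneg (fun k => by positivity) hi] at h0
  have h1 : (fun k : P.K => ‖h k‖ ^ 2) = 0 :=
    (Continuous.ae_eq_iff_eq μ hc continuous_const).1 h0
  funext x
  rw [hh.2.1.apply_eq x]
  have h2 : ‖h (P.κ x)‖ ^ 2 = 0 := congrFun h1 ⟨P.κ x, P.κ_mem x⟩
  have h3 : h (P.κ x) = 0 := by simpa using h2
  rw [h3, smul_zero]; rfl

end pairing

/-- CAS-B: decomposition into eigenfunctions of the Casimir operator of `K`. -/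
theorem casimir_decomp {f : G → U} (hf : f ∈ V R) : ∃ (s : Finset ℝ) (g : ℝ → G → U),
    (∀ μ ∈ s, 0 ≤ μ) ∧ (∀ μ ∈ s, g μ ∈ V R) ∧ (∀ μ ∈ s, cas P (g μ) = (μ : ℂ) • g μ) ∧
    f = ∑ μ ∈ s, g μ := by
  haveI : CompactSpace P.K := compactSpace_K P
  letI : MeasurableSpace P.K := borel P.K
  haveI : BorelSpace P.K := ⟨rfl⟩
  obtain ⟨μ, hμ1, hμ2, hμ3, -, hμ5⟩ := exists_haar P.K
  obtain ⟨W₀, hW₀fin, hfW₀, hW₀K⟩ := hf.2.2
  let S : Set (G → U) := {w | ∃ k ∈ P.K, w = lt k f}
  let W : Submodule ℂ (G → U) := Submodule.span ℂ S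
  have hWW₀ : W ≤ W₀ := by
    refine Submodule.span_le.2 ?_
    rintro w ⟨k, hk, rfl⟩
    exact hW₀K k hk f hfW₀
  have hWfin : FiniteDimensional ℂ W := Submodule.finiteDimensional_of_le hWW₀
  have hfW : f ∈ W := Submodule.subset_span ⟨1, P.K.one_mem, (lt_one f).symm⟩
  have hstab : ∀ k ∈ P.K, ∀ w ∈ W, lt k w ∈ W := by
    intro k hk w hw
    induction hw using Submodule.span_induction with
    | mem w hw =>
      obtain ⟨k', hk', rfl⟩ := hw
      refine Submodule.subset_span ⟨k * k', P.K.mul_mem hk hk', ?_⟩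
      rw [lt_lt]
    | zero => exact W.zero_mem
    | add a b _ _ ha hb => exact W.add_mem ha hb
    | smul c a _ ha => exact W.smul_mem c ha
  have hWV : W ≤ V R := by
    refine Submodule.span_le.2 ?_
    rintro w ⟨k, hk, rfl⟩
    exact ⟨hf.1.comp (continuous_const.mul continuous_id), hf.2.1.lt k,
      W₀, hW₀fin, hW₀K k hk f hfW₀, hW₀K⟩
  have hsm : ∀ w ∈ W, P.Smooth w := fun w hw => smooth_of_mem_V (hWV hw)
  have hexpK : ∀ (Z : P.𝔨) (t : ℝ), P.exp (t • (Z : 𝔤)) ∈ P.K := fun Z t =>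
    ParData.exp_mem (t • Z)
  -- difference quotients converge in the product topology
  have hquot : ∀ (Z : P.𝔨), ∀ w ∈ W, Tendsto
      (fun t : ℝ => t⁻¹ • (lt (P.exp (t • (Z : 𝔤))) w - w)) (𝓝[≠] 0) (𝓝 (P.lD (Z : 𝔤) w)) := by
    intro Z w hw
    rw [tendsto_pi_nhds]
    intro x
    have h1 := P.hasDerivAt_lD (hsm w hw) (Z : 𝔤) x 0
    rw [hasDerivAt_iff_tendsto_slope] at h1
    simp only [zero_smul, neg_zero, P.exp_zero, one_mul] at h1
    refine h1.congr fun t => ?_
    simp only [slope, sub_zero, vsub_eq_sub, zero_smul, neg_zero, P.exp_zero, one_mul,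
      Pi.smul_apply, Pi.sub_apply, lt, P.exp_neg]
  have hclosed : IsClosed (W : Set (G → U)) := Submodule.closed_of_finiteDimensional W
  have hlDW : ∀ (Z : P.𝔨), ∀ w ∈ W, P.lD (Z : 𝔤) w ∈ W := by
    intro Z w hw
    refine hclosed.mem_of_tendsto (hquot Z w hw) (Eventually.of_forall fun t => ?_)
    have h1 : lt (P.exp (t • (Z : 𝔤))) w - w ∈ W := W.sub_mem (hstab _ (hexpK Z t) w hw) hw
    have h2 := W.smul_mem ((t⁻¹ : ℝ) : ℂ) h1
    rwa [Complex.coe_smul] at h2
  -- skewness
  have hskew : ∀ (Z : P.𝔨), ∀ h ∈ W, ∀ w ∈ W,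
      pair μ (P.lD (Z : 𝔤) h) w = -pair μ h (P.lD (Z : 𝔤) w) := by
    intro Z h hh w hw
    -- the linear functional `x ↦ pair μ h x` on `W` is continuous
    have hlin : ∀ h' ∈ W, ∃ ℓ : W →ₗ[ℂ] ℂ, ∀ x : W, ℓ x = pair μ h' (x : G → U) := by
      intro h' hh'
      exact ⟨{ toFun := fun x => pair μ h' (x : G → U)
               map_add' := fun x y => pair_add_right μ (hWV hh').1 (hWV x.2).1 (hWV y.2).1
               map_smul' := fun a x => pair_smul_right μ a }, fun x => rfl⟩
    obtain ⟨ℓ, hℓ⟩ := hlin h hh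
    obtain ⟨ℓ', hℓ'⟩ := hlin w hw
    have hcℓ : Continuous ℓ := LinearMap.continuous_of_finiteDimensional ℓ
    have hcℓ' : Continuous ℓ' := LinearMap.continuous_of_finiteDimensional ℓ'
    let q : ∀ t : ℝ, ∀ x : W, W := fun t x =>
      ⟨t⁻¹ • (lt (P.exp (t • (Z : 𝔤))) (x : G → U) - x), by
        have h1 : lt (P.exp (t • (Z : 𝔤))) (x : G → U) - x ∈ W :=
          W.sub_mem (hstab _ (hexpK Z t) x x.2) x.2
        have h2 := W.smul_mem ((t⁻¹ : ℝ) : ℂ) h1
        rwa [Complex.coe_smul] at h2⟩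
    have hq : ∀ x : W, Tendsto (fun t : ℝ => q t x) (𝓝[≠] 0)
        (𝓝 (⟨P.lD (Z : 𝔤) x, hlDW Z x x.2⟩ : W)) := by
      intro x
      rw [tendsto_subtype_rng]
      exact hquot Z x x.2
    have e1 : Tendsto (fun t : ℝ => ℓ' (q t ⟨h, hh⟩)) (𝓝[≠] 0)
        (𝓝 (pair μ w (P.lD (Z : 𝔤) h))) := by
      have := (hcℓ'.tendsto _).comp (hq ⟨h, hh⟩)
      rwa [hℓ'] at this
    have e2 : Tendsto (fun t : ℝ => ℓ (q (-t) ⟨w, hw⟩)) (𝓝[≠] 0)
        (𝓝 (pair μ h (P.lD (Z : 𝔤) w))) := by
      have h0 : Tendsto (fun t : ℝ => -t) (𝓝[≠] 0) (𝓝[≠] 0) := by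
        refine tendsto_nhdsWithin_iff.2 ⟨?_, ?_⟩
        · have : Tendsto (fun t : ℝ => -t) (𝓝 0) (𝓝 0) := by
            simpa using (continuous_neg (G := ℝ)).tendsto 0
          exact this.mono_left nhdsWithin_le_nhds
        · filter_upwards [self_mem_nhdsWithin] with t ht
          simpa using ht
      have := (hcℓ.tendsto _).comp ((hq ⟨w, hw⟩).comp h0)
      rwa [hℓ] at this
    have e3 : ∀ t : ℝ, (starRingEnd ℂ) (ℓ' (q t ⟨h, hh⟩)) = -ℓ (q (-t) ⟨w, hw⟩) := by
      intro t
      rw [hℓ, hℓ', pair_conj]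
      have ch := (hWV hh).1
      have cw := (hWV hw).1
      have ch' : Continuous (lt (P.exp (t • (Z : 𝔤))) h) :=
        ch.comp (continuous_const.mul continuous_id)
      have cw' : Continuous (lt (P.exp ((-t) • (Z : 𝔤))) w) :=
        cw.comp (continuous_const.mul continuous_id)
      have r1 : ((q t ⟨h, hh⟩ : W) : G → U) =
          ((t⁻¹ : ℝ) : ℂ) • (lt (P.exp (t • (Z : 𝔤))) h + (-1 : ℂ) • h) := by
        simp only [q, Complex.coe_smul, neg_smul, one_smul, sub_eq_add_neg]
      have r2 : ((q (-t) ⟨w, hw⟩ : W) : G → U) =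
          (((-t)⁻¹ : ℝ) : ℂ) • (lt (P.exp ((-t) • (Z : 𝔤))) w + (-1 : ℂ) • w) := by
        simp only [q, Complex.coe_smul, neg_smul, one_smul, sub_eq_add_neg]
      rw [r1, r2, pair_smul_left, pair_smul_right, pair_add_left μ ch' (ch.const_smul _) cw,
        pair_add_right μ ch cw' (cw.const_smul _), pair_smul_left, pair_smul_right]
      have r3 : pair μ (lt (P.exp (t • (Z : 𝔤))) h) w =
          pair μ h (lt (P.exp ((-t) • (Z : 𝔤))) w) := by
        have := pair_lt_K μ (h := lt (P.exp (t • (Z : 𝔤))) h) (f := w) (hexpK Z (-t))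
        rw [← this, lt_lt]
        have h5 : P.exp ((-t) • (Z : 𝔤)) * P.exp (t • (Z : 𝔤)) = 1 := by
          rw [← P.exp_add_smul]; simp [P.exp_zero]
        rw [h5, lt_one]
      rw [r3]
      simp only [Complex.conj_ofReal, inv_neg, Complex.ofReal_neg, map_neg, map_one]
      ring
    have e4 : Tendsto (fun t : ℝ => (starRingEnd ℂ) (ℓ' (q t ⟨h, hh⟩))) (𝓝[≠] 0)
        (𝓝 ((starRingEnd ℂ) (pair μ w (P.lD (Z : 𝔤) h)))) :=
      (Complex.continuous_conj.tendsto _).comp e1
    have e5 : Tendsto (fun t : ℝ => (starRingEnd ℂ) (ℓ' (q t ⟨h, hh⟩))) (𝓝[≠] 0)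
        (𝓝 (-pair μ h (P.lD (Z : 𝔤) w))) := by
      simp only [e3]
      exact e2.neg
    have e6 := tendsto_nhds_unique e4 e5
    rwa [pair_conj] at e6
  -- the operators on `W`
  let D : P.𝔨 → (W →ₗ[ℂ] W) := fun Z =>
    { toFun := fun w => ⟨P.lD (Z : 𝔤) w, hlDW Z w w.2⟩
      map_add' := fun x y => Subtype.ext (lD_add (Z : 𝔤) (hsm x x.2) (hsm y y.2))
      map_smul' := fun a x => Subtype.ext (lD_smul (Z : 𝔤) a (hsm x x.2)) }
  have hD : ∀ Z (w : W), ((D Z w : W) : G → U) = P.lD (Z : 𝔤) w := fun Z w => rfl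
  let c : InnerProductSpace.Core ℂ W :=
    { inner := fun x y => pair μ (x : G → U) (y : G → U)
      conj_inner_symm := fun x y => pair_conj μ (x : G → U) (y : G → U)
      re_inner_nonneg := fun x => by
        change 0 ≤ RCLike.re (pair μ (x : G → U) (x : G → U))
        rw [pair_self]
        have : 0 ≤ ∫ k : P.K, ‖(x : G → U) k‖ ^ 2 ∂μ := integral_nonneg fun k => by positivity
        simpa using this
      add_left := fun x y z => pair_add_left μ (hWV x.2).1 (hWV y.2).1 (hWV z.2).1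
      smul_left := fun x y a => pair_smul_left μ a
      definite := fun x hx => Subtype.ext (eq_zero_of_pair_self μ (hWV x.2) hx) }
  have hc : ∀ x y : W, c.inner x y = pair μ (x : G → U) (y : G → U) := fun x y => rfl
  let b := stdOrthonormalBasis ℝ P.𝔨
  let T : W →ₗ[ℂ] W := -∑ i, D (b i) ∘ₗ D (b i)
  have hT : ∀ w : W, ((T w : W) : G → U) = cas P (w : G → U) := by
    intro w
    simp only [T, cas, LinearMap.neg_apply, LinearMap.sum_apply, LinearMap.comp_apply,
      Submodule.coe_neg, Submodule.coe_sum]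
    rfl
  -- expansion of the form
  have hsk : ∀ Z (x y : W), pair μ ((D Z x : W) : G → U) (y : G → U) =
      -pair μ (x : G → U) ((D Z y : W) : G → U) := fun Z x y => hskew Z x x.2 y y.2
  let ℓ : W → (W →ₗ[ℂ] ℂ) := fun x =>
    { toFun := fun y => pair μ (x : G → U) (y : G → U)
      map_add' := fun y z => pair_add_right μ (hWV x.2).1 (hWV y.2).1 (hWV z.2).1
      map_smul' := fun a y => pair_smul_right μ a }
  have hTr : ∀ x y : W, pair μ (x : G → U) ((T y : W) : G → U) =
      ∑ i, pair μ ((D (b i) x : W) : G → U) ((D (b i) y : W) : G → U) := by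
    intro x y
    have h1 : pair μ (x : G → U) ((T y : W) : G → U) = ℓ x (T y) := rfl
    rw [h1]
    simp only [T, LinearMap.neg_apply, LinearMap.sum_apply, LinearMap.comp_apply, map_neg,
      map_sum]
    rw [← Finset.sum_neg_distrib]
    refine Finset.sum_congr rfl fun i _ => ?_
    change -pair μ (x : G → U) ((D (b i) (D (b i) y) : W) : G → U) = _
    rw [← hsk]
  have hTs : ∀ x y : W, c.inner (T x) y = c.inner x (T y) := by
    intro x y
    rw [hc, hc, hTr, ← pair_conj, hTr, map_sum]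
    refine Finset.sum_congr rfl fun i _ => ?_
    rw [pair_conj]
  have hTp : ∀ x : W, 0 ≤ (c.inner (T x) x).re := by
    intro x
    rw [hTs, hc, hTr, Complex.re_sum]
    refine Finset.sum_nonneg fun i _ => ?_
    rw [pair_self, Complex.ofReal_re]
    exact integral_nonneg fun k => by positivity
  obtain ⟨s, g, h1, h2, h3⟩ := spectral_abs c T hTs hTp ⟨f, hfW⟩
  refine ⟨s, fun μ => (g μ : G → U), h1, fun μ _ => hWV (g μ).2, fun μ hμ => ?_, ?_⟩
  · rw [← hT, h2 μ hμ]; rfl
  · have := congrArg (Subtype.val : W → (G → U)) h3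
    simpa using this

end Pool.Agent.Helper54.SG
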