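import Mathlib

/-!
# A Bernstein type estimate for eigenvectors of a Laplacian (SG-ANA)
-/

open Filter Topology Set

namespace Pool.Agent.Helper54.SG

section algebra

variable {V : Type*} [AddCommGroup V] [Module ℝ V] {ι : Type*} [Fintype ι]

/-- The sum over all words `I` of length `n` of `α (Y_I f) * β (Y_I f)`. -/
noncomputable def BF (Y : ι → V →ₗ[ℝ] V) (f : V) : ℕ → (V →ₗ[ℝ] ℝ) → (V →ₗ[ℝ] ℝ) → ℝ
  | 0, α, β => α f * β f
  | n + 1, α, β => ∑ b, BF Y f n (α ∘ₗ Y b) (β ∘ₗ Y b)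

/-- The commutator terms. -/
noncomputable def CF (Y : ι → V →ₗ[ℝ] V) (f : V) : ℕ → (V →ₗ[ℝ] ℝ) → (V →ₗ[ℝ] ℝ) → ℝ
  | 0, _, _ => 0
  | n + 1, α, β => ∑ b, (BF Y f n (α ∘ₗ Y b) (β ∘ₗ ((∑ i, Y i ∘ₗ Y i) ∘ₗ Y b - Y b ∘ₗ (∑ i, Y i ∘ₗ Y i))) +
      CF Y f n (α ∘ₗ Y b) (β ∘ₗ Y b))

variable (Y : ι → V →ₗ[ℝ] V) (f : V)

theorem BF_succ (n : ℕ) (α β : V →ₗ[ℝ] ℝ) :
    BF Y f (n + 1) α β = ∑ b, BF Y f n (α ∘ₗ Y b) (β ∘ₗ Y b) := rfl

theorem CF_succ (n : ℕ) (α β : V →ₗ[ℝ] ℝ) :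
    CF Y f (n + 1) α β = ∑ b, (BF Y f n (α ∘ₗ Y b)
        (β ∘ₗ ((∑ i, Y i ∘ₗ Y i) ∘ₗ Y b - Y b ∘ₗ (∑ i, Y i ∘ₗ Y i))) +
      CF Y f n (α ∘ₗ Y b) (β ∘ₗ Y b)) := rfl

theorem BF_symm (n : ℕ) : ∀ α β : V →ₗ[ℝ] ℝ, BF Y f n α β = BF Y f n β α := by
  induction n with
  | zero => intro α β; exact mul_comm _ _
  | succ n ih => intro α β; rw [BF_succ, BF_succ]; exact Finset.sum_congr rfl fun b _ => ih _ _

theorem BF_add (n : ℕ) : ∀ α β γ : V →ₗ[ℝ] ℝ, BF Y f n α (β + γ) = BF Y f n α β + BF Y f n α γ := by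
  induction n with
  | zero => intro α β γ; simp only [BF, LinearMap.add_apply]; ring
  | succ n ih =>
    intro α β γ
    rw [BF_succ, BF_succ, BF_succ, ← Finset.sum_add_distrib]
    refine Finset.sum_congr rfl fun b _ => ?_
    rw [LinearMap.add_comp, ih]

theorem BF_smul (n : ℕ) : ∀ (c : ℝ) (α β : V →ₗ[ℝ] ℝ), BF Y f n α (c • β) = c * BF Y f n α β := by
  induction n with
  | zero => intro c α β; simp only [BF, LinearMap.smul_apply, smul_eq_mul]; ring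
  | succ n ih =>
    intro c α β
    rw [BF_succ, BF_succ, Finset.mul_sum]
    refine Finset.sum_congr rfl fun b _ => ?_
    rw [LinearMap.smul_comp, ih]

theorem BF_zero (n : ℕ) (α : V →ₗ[ℝ] ℝ) : BF Y f n α 0 = 0 := by
  have := BF_smul Y f n 0 α 0
  rwa [zero_smul, zero_mul] at this

theorem BF_sum (n : ℕ) {κ : Type*} (s : Finset κ) (α : V →ₗ[ℝ] ℝ) (β : κ → V →ₗ[ℝ] ℝ) :
    BF Y f n α (∑ x ∈ s, β x) = ∑ x ∈ s, BF Y f n α (β x) := by
  classical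
  induction s using Finset.induction_on with
  | empty => rw [Finset.sum_empty, Finset.sum_empty, BF_zero]
  | insert a s ha ih => rw [Finset.sum_insert ha, Finset.sum_insert ha, BF_add, ih]

theorem BF_nonneg (n : ℕ) : ∀ α : V →ₗ[ℝ] ℝ, 0 ≤ BF Y f n α α := by
  induction n with
  | zero => intro α; exact mul_self_nonneg _
  | succ n ih => intro α; rw [BF_succ]; exact Finset.sum_nonneg fun b _ => ih _

/-- weighted Cauchy-Schwarz -/
theorem BF_cs (n : ℕ) (α β : V →ₗ[ℝ] ℝ) {t : ℝ} (ht : 0 < t) :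
    -(2 * BF Y f n α β) ≤ t * BF Y f n α α + t⁻¹ * BF Y f n β β := by
  have h := BF_nonneg Y f n (α + t⁻¹ • β)
  rw [BF_add, BF_smul, BF_symm Y f n (α + t⁻¹ • β) α, BF_symm Y f n (α + t⁻¹ • β) β, BF_add, BF_add,
    BF_smul, BF_smul, BF_symm Y f n β α] at h
  have h2 := mul_nonneg ht.le h
  have e : t * (BF Y f n α α + t⁻¹ * BF Y f n α β + t⁻¹ * (BF Y f n α β + t⁻¹ * BF Y f n β β)) =
      t * BF Y f n α α + 2 * BF Y f n α β + t⁻¹ * BF Y f n β β := by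
    field_simp
    ring
  rw [e] at h2
  linarith

/-- Cauchy-Schwarz for linear combinations -/
theorem BF_comb (n : ℕ) {κ : Type*} (s : Finset κ) (d : κ → ℝ) : ∀ β : κ → V →ₗ[ℝ] ℝ,
    BF Y f n (∑ x ∈ s, d x • β x) (∑ x ∈ s, d x • β x) ≤
      (∑ x ∈ s, d x ^ 2) * ∑ x ∈ s, BF Y f n (β x) (β x) := by
  induction n with
  | zero =>
    intro β
    have h := Finset.sum_mul_sq_le_sq_mul_sq s d (fun x => β x f)
    simp only [BF, LinearMap.sum_apply, LinearMap.smul_apply, smul_eq_mul]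
    simpa only [← sq] using h
  | succ n ih =>
    intro β
    simp only [BF_succ]
    rw [Finset.sum_comm, Finset.mul_sum]
    refine Finset.sum_le_sum fun b _ => ?_
    have e : (∑ x ∈ s, d x • β x) ∘ₗ Y b = ∑ x ∈ s, d x • (β x ∘ₗ Y b) := by
      ext v
      simp only [LinearMap.comp_apply, LinearMap.sum_apply, LinearMap.smul_apply]
    rw [e]
    exact ih _

theorem BF_delta {μ : ℝ} (hf : ∑ i, Y i (Y i f) = -μ • f) (n : ℕ) : ∀ α β : V →ₗ[ℝ] ℝ,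
    BF Y f n α (β ∘ₗ (∑ i, Y i ∘ₗ Y i)) = -μ * BF Y f n α β + CF Y f n α β := by
  induction n with
  | zero =>
    intro α β
    have e : (∑ i, Y i ∘ₗ Y i) f = -μ • f := by
      rw [← hf, LinearMap.sum_apply]; rfl
    simp only [BF, CF, LinearMap.comp_apply, e, map_smul, smul_eq_mul, add_zero]
    ring
  | succ n ih =>
    intro α β
    rw [BF_succ, BF_succ, CF_succ, Finset.mul_sum, ← Finset.sum_add_distrib]
    refine Finset.sum_congr rfl fun b _ => ?_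
    have e : (β ∘ₗ (∑ i, Y i ∘ₗ Y i)) ∘ₗ Y b = (β ∘ₗ Y b) ∘ₗ (∑ i, Y i ∘ₗ Y i) +
        β ∘ₗ ((∑ i, Y i ∘ₗ Y i) ∘ₗ Y b - Y b ∘ₗ (∑ i, Y i ∘ₗ Y i)) := by
      ext v
      simp only [LinearMap.comp_apply, LinearMap.add_apply, LinearMap.sub_apply, map_sub]
      ring
    rw [e, BF_add, ih]
    ring

variable {Y f}

/-- the commutator of the Laplacian with a field -/
theorem comm_delta {c : ι → ι → ι → ℝ}
    (hc : ∀ a b v, Y a (Y b v) - Y b (Y a v) = ∑ k, c a b k • Y k v) (b : ι) (β : V →ₗ[ℝ] ℝ) :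
    β ∘ₗ ((∑ i, Y i ∘ₗ Y i) ∘ₗ Y b - Y b ∘ₗ (∑ i, Y i ∘ₗ Y i)) =
      ∑ x : ι × ι, (c x.1 b x.2 + c x.2 b x.1) • ((β ∘ₗ Y x.1) ∘ₗ Y x.2) := by
  ext v
  have h1 : ∀ a, Y a (Y a (Y b v)) - Y b (Y a (Y a v)) =
      ∑ k, c a b k • Y a (Y k v) + ∑ k, c a b k • Y k (Y a v) := by
    intro a
    have e1 := hc a b (Y a v)
    have e2 := congrArg (Y a) (hc a b v)
    rw [map_sub, map_sum] at e2
    simp only [map_smul] at e2
    rw [← e1, ← e2]
    abel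
  simp only [LinearMap.comp_apply, LinearMap.sub_apply, LinearMap.sum_apply, LinearMap.smul_apply,
    smul_eq_mul, map_sum]
  rw [← Finset.sum_sub_distrib]
  rw [Finset.sum_congr rfl fun a _ => h1 a, Finset.sum_add_distrib, map_add, map_sum, map_sum]
  simp only [map_sum, map_smul, smul_eq_mul]
  rw [Fintype.sum_prod_type]
  simp only [add_mul, Finset.sum_add_distrib]
  congr 1
  rw [Finset.sum_comm]

theorem BF_comm_le {c : ι → ι → ι → ℝ}
    (hc : ∀ a b v, Y a (Y b v) - Y b (Y a v) = ∑ k, c a b k • Y k v) (n : ℕ) (β : V →ₗ[ℝ] ℝ) :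
    ∑ b, BF Y f n (β ∘ₗ ((∑ i, Y i ∘ₗ Y i) ∘ₗ Y b - Y b ∘ₗ (∑ i, Y i ∘ₗ Y i)))
        (β ∘ₗ ((∑ i, Y i ∘ₗ Y i) ∘ₗ Y b - Y b ∘ₗ (∑ i, Y i ∘ₗ Y i))) ≤
      (∑ b, ∑ x : ι × ι, (c x.1 b x.2 + c x.2 b x.1) ^ 2) * BF Y f (n + 2) β β := by
  rw [Finset.sum_mul]
  refine Finset.sum_le_sum fun b _ => ?_
  rw [comm_delta hc b β]
  refine (BF_comb Y f n _ _ _).trans (le_of_eq ?_)
  rw [BF_succ]
  congr 1
  rw [Fintype.sum_prod_type]
  rfl

theorem CF_le {c : ι → ι → ι → ℝ}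
    (hc : ∀ a b v, Y a (Y b v) - Y b (Y a v) = ∑ k, c a b k • Y k v) {K : ℝ} (hK : 0 < K)
    (hK2 : ∑ b, ∑ x : ι × ι, (c x.1 b x.2 + c x.2 b x.1) ^ 2 ≤ K) {t : ℝ} (ht : 0 < t) (n : ℕ) :
    ∀ α β : V →ₗ[ℝ] ℝ,
    -(2 * CF Y f n α β) ≤ n * (K * t * BF Y f n α α + t⁻¹ * BF Y f (n + 1) β β) := by
  induction n with
  | zero => intro α β; simp [CF]
  | succ n ih =>
    intro α β
    rw [CF_succ, Finset.sum_add_distrib]
    have h1 : -(2 * ∑ b, BF Y f n (α ∘ₗ Y b)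
        (β ∘ₗ ((∑ i, Y i ∘ₗ Y i) ∘ₗ Y b - Y b ∘ₗ (∑ i, Y i ∘ₗ Y i)))) ≤
        K * t * BF Y f (n + 1) α α + t⁻¹ * BF Y f (n + 2) β β := by
      have h2 : -(2 * ∑ b, BF Y f n (α ∘ₗ Y b)
          (β ∘ₗ ((∑ i, Y i ∘ₗ Y i) ∘ₗ Y b - Y b ∘ₗ (∑ i, Y i ∘ₗ Y i)))) ≤
          ∑ b, ((K * t) * BF Y f n (α ∘ₗ Y b) (α ∘ₗ Y b) + (K * t)⁻¹ *
            BF Y f n (β ∘ₗ ((∑ i, Y i ∘ₗ Y i) ∘ₗ Y b - Y b ∘ₗ (∑ i, Y i ∘ₗ Y i)))
              (β ∘ₗ ((∑ i, Y i ∘ₗ Y i) ∘ₗ Y b - Y b ∘ₗ (∑ i, Y i ∘ₗ Y i)))) := by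
        rw [Finset.mul_sum, ← Finset.sum_neg_distrib]
        exact Finset.sum_le_sum fun b _ => BF_cs Y f n _ _ (mul_pos hK ht)
      refine h2.trans ?_
      rw [Finset.sum_add_distrib, ← Finset.mul_sum, ← Finset.mul_sum, ← BF_succ]
      have h3 := BF_comm_le (f := f) hc n β
      have h4 : (∑ b, ∑ x : ι × ι, (c x.1 b x.2 + c x.2 b x.1) ^ 2) * BF Y f (n + 2) β β ≤
          K * BF Y f (n + 2) β β := mul_le_mul_of_nonneg_right hK2 (BF_nonneg Y f _ _)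
      have h5 := mul_le_mul_of_nonneg_left (h3.trans h4) (inv_nonneg.2 (mul_pos hK ht).le)
      have e : (K * t)⁻¹ * (K * BF Y f (n + 2) β β) = t⁻¹ * BF Y f (n + 2) β β := by
        field_simp
      rw [e] at h5
      linarith
    have h6 : -(2 * ∑ b, CF Y f n (α ∘ₗ Y b) (β ∘ₗ Y b)) ≤
        n * (K * t * BF Y f (n + 1) α α + t⁻¹ * BF Y f (n + 2) β β) := by
      rw [Finset.mul_sum, ← Finset.sum_neg_distrib]
      refine (Finset.sum_le_sum fun b _ => ih _ _).trans (le_of_eq ?_)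
      rw [← Finset.mul_sum, Finset.sum_add_distrib, ← Finset.mul_sum, ← Finset.mul_sum, ← BF_succ,
        ← BF_succ]
    push_cast
    have : n + 1 + 1 = n + 2 := rfl
    rw [this]
    linarith

/-- products of fields are controlled by `BF` -/
theorem fold_le (n : ℕ) : ∀ (x : Fin n → ι → ℝ), (∀ k, ∑ i, x k i ^ 2 ≤ 1) → ∀ α : V →ₗ[ℝ] ℝ,
    (α ((List.ofFn x).foldr (fun a w => ∑ i, a i • Y i w) f)) ^ 2 ≤ BF Y f n α α := by
  induction n with
  | zero => intro x _ α; simp [BF, sq]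
  | succ n ih =>
    intro x hx α
    rw [List.ofFn_succ, List.foldr_cons, map_sum, BF_succ]
    set w := (List.ofFn fun i : Fin n => x i.succ).foldr (fun a w => ∑ i, a i • Y i w) f with hw
    have h := Finset.sum_mul_sq_le_sq_mul_sq Finset.univ (x 0) (fun i => α (Y i w))
    simp only [map_smul, smul_eq_mul]
    refine h.trans ?_
    have h2 : ∑ i, (α (Y i w)) ^ 2 ≤ ∑ b, BF Y f n (α ∘ₗ Y b) (α ∘ₗ Y b) :=
      Finset.sum_le_sum fun b _ => ih (fun i => x i.succ) (fun k => hx k.succ) (α ∘ₗ Y b)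
    have h3 : 0 ≤ ∑ i, (α (Y i w)) ^ 2 := Finset.sum_nonneg fun _ _ => sq_nonneg _
    calc (∑ i, x 0 i ^ 2) * ∑ i, (α (Y i w)) ^ 2 ≤ 1 * ∑ i, (α (Y i w)) ^ 2 :=
          mul_le_mul_of_nonneg_right (hx 0) h3
      _ ≤ _ := by rw [one_mul]; exact h2

theorem BF_continuous {X : Type*} [TopologicalSpace X] (n : ℕ) : ∀ α β : X → V →ₗ[ℝ] ℝ,
    (∀ v, Continuous fun x => α x v) → (∀ v, Continuous fun x => β x v) →
    Continuous fun x => BF Y f n (α x) (β x) := by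
  induction n with
  | zero => intro α β ha hb; exact (ha f).mul (hb f)
  | succ n ih =>
    intro α β ha hb
    simp only [BF_succ]
    exact continuous_finsetSum _ fun b _ => ih (fun x => α x ∘ₗ Y b) (fun x => β x ∘ₗ Y b)
      (fun v => ha (Y b v)) (fun v => hb (Y b v))

theorem BF_hasDerivAt (n : ℕ) {s : ℝ} : ∀ (α β : ℝ → V →ₗ[ℝ] ℝ) (α' β' : V →ₗ[ℝ] ℝ),
    (∀ v, HasDerivAt (fun x => α x v) (α' v) s) → (∀ v, HasDerivAt (fun x => β x v) (β' v) s) →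
    HasDerivAt (fun x => BF Y f n (α x) (β x)) (BF Y f n α' (β s) + BF Y f n (α s) β') s := by
  induction n with
  | zero => intro α β α' β' ha hb; exact (ha f).mul (hb f)
  | succ n ih =>
    intro α β α' β' ha hb
    simp only [BF_succ]
    rw [← Finset.sum_add_distrib]
    exact HasDerivAt.fun_sum fun b _ => ih (fun x => α x ∘ₗ Y b) (fun x => β x ∘ₗ Y b) (α' ∘ₗ Y b) (β' ∘ₗ Y b)
      (fun v => ha (Y b v)) (fun v => hb (Y b v))

end algebra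

/-- second derivative test -/
theorem second_deriv_nonpos {g g' : ℝ → ℝ} {g'' : ℝ} (h1 : ∀ s, HasDerivAt g (g' s) s)
    (h2 : HasDerivAt g' g'' 0) (h : ∀ s, g s ≤ g 0) : g'' ≤ 0 := by
  by_contra hpos
  push Not at hpos
  have hd : deriv g = g' := funext fun s => (h1 s).deriv
  have hmax : IsLocalMax g 0 := Filter.Eventually.of_forall h
  have h0 : deriv g 0 = 0 := hmax.deriv_eq_zero
  have hmin : IsLocalMin g 0 := by
    apply isLocalMin_of_deriv_deriv_pos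
    · rw [hd, h2.deriv]; exact hpos
    · exact h0
    · exact (h1 0).continuousAt
  have heq : g =ᶠ[𝓝 0] fun _ => g 0 := by
    filter_upwards [hmin] with s hs
    exact le_antisymm (h s) hs
  have h3 : deriv g =ᶠ[𝓝 0] deriv (fun _ : ℝ => g 0) := heq.deriv
  have h4 : g' =ᶠ[𝓝 0] fun _ => (0 : ℝ) := by
    rw [hd] at h3
    refine h3.trans (Filter.Eventually.of_forall fun s => ?_)
    simp
  have h5 : g'' = 0 := by
    have := h4.deriv_eq
    rw [h2.deriv, deriv_const] at this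
    exact this
  linarith

section main

variable {G : Type*} [Group G] {E : Type*} [NormedAddCommGroup E] [NormedSpace ℝ E]
  {V : Type*} [AddCommGroup V] [Module ℝ V] {ι : Type*} [Fintype ι]

/-- the compact set of functionals -/
def Bset (R : G →* (E →L[ℝ] E)) : Set (WeakDual ℝ E) :=
  {L | ∀ g v, |L (R g v)| ≤ ‖v‖}

theorem Bset_compact (R : G →* (E →L[ℝ] E)) : IsCompact (Bset R) := by
  have h1 : IsCompact (WeakDual.toStrongDual ⁻¹' Metric.closedBall (0 : StrongDual ℝ E) 1) :=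
    WeakDual.isCompact_closedBall (𝕜 := ℝ) (E := E) (0 : StrongDual ℝ E) 1
  have h2 : IsClosed (Bset R) := by
    have : Bset R = ⋂ g, ⋂ v, {L : WeakDual ℝ E | |L (R g v)| ≤ ‖v‖} := by
      ext L; simp [Bset]
    rw [this]
    refine isClosed_iInter fun g => isClosed_iInter fun v => ?_
    exact isClosed_le ((WeakDual.eval_continuous (R g v)).abs) continuous_const
  refine h1.of_isClosed_subset h2 ?_
  intro L hL
  rw [Set.mem_preimage, mem_closedBall_zero_iff]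
  refine ContinuousLinearMap.opNorm_le_bound _ zero_le_one fun v => ?_
  have := hL 1 v
  rw [map_one] at this
  rw [one_mul, Real.norm_eq_abs]
  exact this

/-- the functional on `V` -/
noncomputable def lam (j : V →ₗ[ℝ] E) (L : WeakDual ℝ E) : V →ₗ[ℝ] ℝ :=
  (WeakDual.toStrongDual L : E →L[ℝ] ℝ).toLinearMap ∘ₗ j

theorem lam_apply (j : V →ₗ[ℝ] E) (L : WeakDual ℝ E) (v : V) : lam j L v = L (j v) := rfl

/-- precomposition with `R g` -/
noncomputable def pre (R : G →* (E →L[ℝ] E)) (L : WeakDual ℝ E) (g : G) : WeakDual ℝ E :=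
  StrongDual.toWeakDual ((WeakDual.toStrongDual L : E →L[ℝ] ℝ).comp (R g))

theorem pre_apply (R : G →* (E →L[ℝ] E)) (L : WeakDual ℝ E) (g : G) (v : E) :
    pre R L g v = L (R g v) := rfl

theorem pre_mem {R : G →* (E →L[ℝ] E)} {L : WeakDual ℝ E} (hL : L ∈ Bset R) (g : G) :
    pre R L g ∈ Bset R := by
  intro g' v
  rw [pre_apply]
  have := hL (g * g') v
  rw [map_mul] at this
  exact this

theorem lam_hasDerivAt {R : G →* (E →L[ℝ] E)} {j : V →ₗ[ℝ] E} {y : ℝ → G} {Y : V →ₗ[ℝ] V}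
    (hy : ∀ s t, y (s + t) = y s * y t)
    (hY : ∀ v, HasDerivAt (fun s : ℝ => R (y s) (j v)) (j (Y v)) 0) (L : WeakDual ℝ E) (s : ℝ) (v : V) :
    HasDerivAt (fun x => lam j (pre R L (y x)) v) ((lam j (pre R L (y s)) ∘ₗ Y) v) s := by
  have h1 : (fun x => lam j (pre R L (y x)) v) =
      fun x => ((WeakDual.toStrongDual L : E →L[ℝ] ℝ).comp (R (y s))) (R (y (x - s)) (j v)) := by
    funext x
    rw [lam_apply, pre_apply]
    have : y x = y s * y (x - s) := by rw [← hy]; congr 1; ring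
    rw [this, map_mul]
    rfl
  rw [h1]
  have h2 : HasDerivAt (fun x : ℝ => R (y (x - s)) (j v)) (j (Y v)) s := by
    have h3 : HasDerivAt (fun x : ℝ => R (y x) (j v)) (j (Y v)) (s - s) := by rw [sub_self]; exact hY v
    exact h3.comp_sub_const s s
  exact (((WeakDual.toStrongDual L : E →L[ℝ] ℝ).comp (R (y s))).hasFDerivAt.comp_hasDerivAt s h2)

theorem pre_zero {R : G →* (E →L[ℝ] E)} {y : ℝ → G} (hy : ∀ s t, y (s + t) = y s * y t)
    (L : WeakDual ℝ E) : pre R L (y 0) = L := by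
  have h0 : y 0 = 1 := by
    have := hy 0 0
    rw [add_zero] at this
    exact (mul_eq_left.1 this.symm)
  rw [h0]
  refine DFunLike.ext _ _ fun v => ?_
  rw [pre_apply, map_one]
  rfl

/-- the second derivative of `BF` along a one-parameter group at a maximiser -/
theorem second_le {R : G →* (E →L[ℝ] E)} {j : V →ₗ[ℝ] E}
    {y : ι → ℝ → G} {Y : ι → V →ₗ[ℝ] V} {f : V}
    (hy : ∀ i s t, y i (s + t) = y i s * y i t)
    (hY : ∀ i v, HasDerivAt (fun s : ℝ => R (y i s) (j v)) (j (Y i v)) 0)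
    {L : WeakDual ℝ E} (hL : L ∈ Bset R) (m : ℕ) (A : ℝ)
    (hmax : ∀ L' ∈ Bset R, BF Y f (m + 1) (lam j L') (lam j L') + A * BF Y f m (lam j L') (lam j L') ≤
      BF Y f (m + 1) (lam j L) (lam j L) + A * BF Y f m (lam j L) (lam j L)) :
    (BF Y f (m + 2) (lam j L) (lam j L) + BF Y f (m + 1) (lam j L) (lam j L ∘ₗ (∑ i, Y i ∘ₗ Y i))) +
      A * (BF Y f (m + 1) (lam j L) (lam j L) + BF Y f m (lam j L) (lam j L ∘ₗ (∑ i, Y i ∘ₗ Y i))) ≤ 0 := by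
  have key : ∀ i, (BF Y f (m + 1) (lam j L ∘ₗ Y i) (lam j L ∘ₗ Y i) +
        BF Y f (m + 1) (lam j L) (lam j L ∘ₗ (Y i ∘ₗ Y i))) +
      A * (BF Y f m (lam j L ∘ₗ Y i) (lam j L ∘ₗ Y i) +
        BF Y f m (lam j L) (lam j L ∘ₗ (Y i ∘ₗ Y i))) ≤ 0 := by
    intro i
    have hd := fun s v => lam_hasDerivAt (hy i) (hY i) L s v
    have hd2 : ∀ s v, HasDerivAt (fun x => (lam j (pre R L (y i x)) ∘ₗ Y i) v)
        ((lam j (pre R L (y i s)) ∘ₗ (Y i ∘ₗ Y i)) v) s := fun s v => hd s (Y i v)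
    have g1 : ∀ n s, HasDerivAt (fun x => BF Y f n (lam j (pre R L (y i x))) (lam j (pre R L (y i x))))
        (2 * BF Y f n (lam j (pre R L (y i s))) (lam j (pre R L (y i s)) ∘ₗ Y i)) s := by
      intro n s
      have := BF_hasDerivAt (Y := Y) (f := f) n (fun x => lam j (pre R L (y i x)))
        (fun x => lam j (pre R L (y i x))) _ _ (hd s) (hd s)
      refine this.congr_deriv ?_
      rw [BF_symm Y f n (lam j (pre R L (y i s)) ∘ₗ Y i)]
      ring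
    have g2 : ∀ n s, HasDerivAt (fun x => 2 * BF Y f n (lam j (pre R L (y i x)))
          (lam j (pre R L (y i x)) ∘ₗ Y i))
        (2 * (BF Y f n (lam j (pre R L (y i s)) ∘ₗ Y i) (lam j (pre R L (y i s)) ∘ₗ Y i) +
          BF Y f n (lam j (pre R L (y i s))) (lam j (pre R L (y i s)) ∘ₗ (Y i ∘ₗ Y i)))) s := by
      intro n s
      exact (BF_hasDerivAt (Y := Y) (f := f) n (fun x => lam j (pre R L (y i x)))
        (fun x => lam j (pre R L (y i x)) ∘ₗ Y i) _ _ (hd s) (hd2 s)).const_mul 2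
    have h3 := second_deriv_nonpos
      (fun s => (g1 (m + 1) s).add ((g1 m s).const_mul A))
      ((g2 (m + 1) 0).add ((g2 m 0).const_mul A))
      (fun s => by
        have := hmax _ (pre_mem hL (y i s))
        simp only [Pi.add_apply]
        rw [pre_zero (hy i) L]
        exact this)
    rw [pre_zero (hy i) L] at h3
    linarith
  have hsum := Finset.sum_nonpos (s := Finset.univ) fun i _ => key i
  rw [Finset.sum_add_distrib, Finset.sum_add_distrib, ← Finset.mul_sum, Finset.sum_add_distrib,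
    ← BF_succ, ← BF_succ, ← BF_sum, ← BF_sum] at hsum
  have e : lam j L ∘ₗ (∑ i, Y i ∘ₗ Y i) = ∑ i, lam j L ∘ₗ (Y i ∘ₗ Y i) := by
    ext v
    simp only [LinearMap.comp_apply, LinearMap.sum_apply, map_sum]
  rw [e]
  exact hsum

/-- one step of the induction -/
theorem step {R : G →* (E →L[ℝ] E)} {j : V →ₗ[ℝ] E}
    {y : ι → ℝ → G} {Y : ι → V →ₗ[ℝ] V} {f : V}
    (hy : ∀ i s t, y i (s + t) = y i s * y i t)
    (hY : ∀ i v, HasDerivAt (fun s : ℝ => R (y i s) (j v)) (j (Y i v)) 0)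
    {c : ι → ι → ι → ℝ} (hc : ∀ a b v, Y a (Y b v) - Y b (Y a v) = ∑ k, c a b k • Y k v)
    {μ : ℝ} (hf : ∑ i, Y i (Y i f) = -μ • f) {K : ℝ} (hK : 0 < K)
    (hK2 : ∑ b, ∑ x : ι × ι, (c x.1 b x.2 + c x.2 b x.1) ^ 2 ≤ K) (m : ℕ) {M : ℝ}
    (hM : ∀ L ∈ Bset R, BF Y f m (lam j L) (lam j L) ≤ M) :
    ∀ L ∈ Bset R, BF Y f (m + 1) (lam j L) (lam j L) ≤
      4 * (2 * |μ| + K * ((m : ℝ) + 1) ^ 2 + 1) * M := by
  set b : ℕ → ℝ := fun n => 2 * |μ| + K * (n : ℝ) ^ 2 + 1 with hb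
  have hbpos : ∀ n, 0 < b n := fun n => by
    have : 0 ≤ K * (n : ℝ) ^ 2 := by positivity
    have := abs_nonneg μ
    simp only [hb]; linarith
  have hlow : ∀ (n : ℕ) (α : V →ₗ[ℝ] ℝ), BF Y f (n + 1) α α - b n * BF Y f n α α ≤
      2 * (BF Y f (n + 1) α α + BF Y f n α (α ∘ₗ (∑ i, Y i ∘ₗ Y i))) := by
    intro n α
    rw [BF_delta Y f hf n α α]
    have h1 : -(2 * CF Y f n α α) ≤ K * (n : ℝ) ^ 2 * BF Y f n α α + BF Y f (n + 1) α α := by
      rcases Nat.eq_zero_or_pos n with h0 | h0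
      · subst h0
        have := BF_nonneg Y f (0 + 1) α
        simp only [CF]
        simpa using this
      · have hn : (0 : ℝ) < n := by exact_mod_cast h0
        have := CF_le (f := f) hc hK hK2 hn n α α
        have e : (n : ℝ) * (K * n * BF Y f n α α + (n : ℝ)⁻¹ * BF Y f (n + 1) α α) =
            K * (n : ℝ) ^ 2 * BF Y f n α α + BF Y f (n + 1) α α := by
          field_simp
        rw [e] at this
        exact this
    have h2 : μ * BF Y f n α α ≤ |μ| * BF Y f n α α :=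
      mul_le_mul_of_nonneg_right (le_abs_self μ) (BF_nonneg Y f n α)
    have h3 := BF_nonneg Y f n α
    simp only [hb]
    nlinarith
  by_cases hne : (Bset R).Nonempty
  swap
  · intro L hL; exact absurd ⟨L, hL⟩ hne
  have hcont : Continuous fun L : WeakDual ℝ E =>
      BF Y f (m + 1) (lam j L) (lam j L) + (2 * b (m + 1)) * BF Y f m (lam j L) (lam j L) := by
    have h1 : ∀ v, Continuous fun L : WeakDual ℝ E => lam j L v := fun v =>
      WeakDual.eval_continuous (j v)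
    exact (BF_continuous (m + 1) _ _ h1 h1).add ((BF_continuous m _ _ h1 h1).const_mul _)
  obtain ⟨L₀, hL₀, hmax⟩ := (Bset_compact R).exists_isMaxOn hne hcont.continuousOn
  have hs := second_le hy hY hL₀ m (2 * b (m + 1)) (fun L' hL' => hmax hL')
  have l1 := hlow (m + 1) (lam j L₀)
  have l2 := hlow m (lam j L₀)
  have hb1 := hbpos (m + 1)
  have hb0 := hbpos m
  have l3 := mul_le_mul_of_nonneg_left l2 (show 0 ≤ 2 * b (m + 1) by linarith)
  have n2 := BF_nonneg Y f (m + 1 + 1) (lam j L₀)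
  have n1 := BF_nonneg Y f (m + 1) (lam j L₀)
  have n0 := BF_nonneg Y f m (lam j L₀)
  have hm2 : m + 1 + 1 = m + 2 := rfl
  rw [hm2] at l1 n2
  have l4 : b (m + 1) * BF Y f (m + 1) (lam j L₀) (lam j L₀) ≤
      b (m + 1) * (2 * b m * BF Y f m (lam j L₀) (lam j L₀)) := by
    nlinarith
  have l5 : BF Y f (m + 1) (lam j L₀) (lam j L₀) ≤ 2 * b m * BF Y f m (lam j L₀) (lam j L₀) :=
    le_of_mul_le_mul_left l4 hb1
  have hMm := hM L₀ hL₀
  have hbm : b m ≤ b (m + 1) := by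
    simp only [hb]
    have : (m : ℝ) ^ 2 ≤ ((m + 1 : ℕ) : ℝ) ^ 2 := by push_cast; nlinarith [Nat.cast_nonneg (α := ℝ) m]
    nlinarith
  intro L hL
  have h1 := hmax hL
  simp only [Set.mem_ofPred_eq] at h1
  have h2 := BF_nonneg Y f m (lam j L)
  have h3 : 0 ≤ 2 * b (m + 1) * BF Y f m (lam j L) (lam j L) := mul_nonneg (by linarith) h2
  have h4 : BF Y f (m + 1) (lam j L) (lam j L) ≤
      2 * b m * BF Y f m (lam j L₀) (lam j L₀) + 2 * b (m + 1) * BF Y f m (lam j L₀) (lam j L₀) := by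
    linarith
  have h5 : 2 * b m * BF Y f m (lam j L₀) (lam j L₀) + 2 * b (m + 1) * BF Y f m (lam j L₀) (lam j L₀) ≤
      4 * b (m + 1) * M := by
    have h6 : b m * BF Y f m (lam j L₀) (lam j L₀) ≤ b (m + 1) * BF Y f m (lam j L₀) (lam j L₀) :=
      mul_le_mul_of_nonneg_right hbm n0
    have h7 : b (m + 1) * BF Y f m (lam j L₀) (lam j L₀) ≤ b (m + 1) * M :=
      mul_le_mul_of_nonneg_left hMm hb1.le
    linarith
  have h8 : b (m + 1) = 2 * |μ| + K * ((m : ℝ) + 1) ^ 2 + 1 := by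
    simp only [hb]; push_cast; ring
  rw [← h8]
  linarith

end main

/-- Bernstein type estimate: an eigenvector of `∑ Y j ^ 2` is an analytic vector of a
bounded representation. -/
theorem bernstein {G : Type*} [Group G] {E : Type*} [NormedAddCommGroup E] [NormedSpace ℝ E]
    (R : G →* (E →L[ℝ] E)) {C₀ : ℝ} (hR : ∀ g v, ‖R g v‖ ≤ C₀ * ‖v‖)
    {V : Type*} [AddCommGroup V] [Module ℝ V] (j : V →ₗ[ℝ] E)
    {ι : Type*} [Fintype ι] (y : ι → ℝ → G) (Y : ι → V →ₗ[ℝ] V)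
    (hy : ∀ i s t, y i (s + t) = y i s * y i t)
    (hY : ∀ i v, HasDerivAt (fun s : ℝ => R (y i s) (j v)) (j (Y i v)) 0)
    (c : ι → ι → ι → ℝ) (hc : ∀ a b v, Y a (Y b v) - Y b (Y a v) = ∑ k, c a b k • Y k v)
    (f : V) (μ : ℝ) (hf : ∑ i, Y i (Y i f) = -μ • f) :
    ∃ B : ℝ, 0 ≤ B ∧ ∀ (n : ℕ) (x : Fin n → ι → ℝ), (∀ k, ∑ i, x k i ^ 2 ≤ 1) →
      ‖j ((List.ofFn x).foldr (fun a w => ∑ i, a i • Y i w) f)‖ ≤ B ^ (n + 1) * n.factorial := by
  set K : ℝ := (∑ b, ∑ x : ι × ι, (c x.1 b x.2 + c x.2 b x.1) ^ 2) + 1 with hK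
  have hKs : 0 ≤ ∑ b, ∑ x : ι × ι, (c x.1 b x.2 + c x.2 b x.1) ^ 2 :=
    Finset.sum_nonneg fun _ _ => Finset.sum_nonneg fun _ _ => sq_nonneg _
  have hK0 : 0 < K := by rw [hK]; linarith
  have hK2 : ∑ b, ∑ x : ι × ι, (c x.1 b x.2 + c x.2 b x.1) ^ 2 ≤ K := by rw [hK]; linarith
  set D : ℝ := 2 * |μ| + K + 1 with hD
  have hD1 : 1 ≤ D := by have := abs_nonneg μ; rw [hD]; linarith
  set C₁ : ℝ := max C₀ 1 with hC₁
  have hC₁1 : 1 ≤ C₁ := le_max_right _ _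
  have hC₁0 : 0 < C₁ := by linarith
  -- bound for all levels
  have hall : ∀ n : ℕ, ∀ L ∈ Bset R, BF Y f n (lam j L) (lam j L) ≤
      (4 * D) ^ n * ((n.factorial : ℝ)) ^ 2 * ‖j f‖ ^ 2 := by
    intro n
    induction n with
    | zero =>
      intro L hL
      have h1 := hL 1 (j f)
      rw [map_one] at h1
      have h1' : |L (j f)| ≤ ‖j f‖ := h1
      simp only [BF, pow_zero, Nat.factorial_zero, Nat.cast_one, one_pow, one_mul, lam_apply]
      rw [← sq, ← sq_abs]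
      exact pow_le_pow_left₀ (abs_nonneg _) h1' 2
    | succ n ih =>
      intro L hL
      refine (step hy hY hc hf hK0 hK2 n ih L hL).trans ?_
      have h1 : 2 * |μ| + K * ((n : ℝ) + 1) ^ 2 + 1 ≤ D * ((n : ℝ) + 1) ^ 2 := by
        have h2 : (1 : ℝ) ≤ ((n : ℝ) + 1) ^ 2 := by nlinarith [Nat.cast_nonneg (α := ℝ) n]
        have h3 := abs_nonneg μ
        rw [hD]
        nlinarith
      have h2 : 0 ≤ (4 * D) ^ n * ((n.factorial : ℝ)) ^ 2 * ‖j f‖ ^ 2 := by positivity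
      calc 4 * (2 * |μ| + K * ((n : ℝ) + 1) ^ 2 + 1) * ((4 * D) ^ n * ((n.factorial : ℝ)) ^ 2 * ‖j f‖ ^ 2)
          ≤ 4 * (D * ((n : ℝ) + 1) ^ 2) * ((4 * D) ^ n * ((n.factorial : ℝ)) ^ 2 * ‖j f‖ ^ 2) := by
            apply mul_le_mul_of_nonneg_right _ h2
            linarith
        _ = (4 * D) ^ (n + 1) * (((n + 1).factorial : ℝ)) ^ 2 * ‖j f‖ ^ 2 := by
            rw [Nat.factorial_succ]; push_cast; ring
  refine ⟨4 * D + C₁ * ‖j f‖, by positivity, ?_⟩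
  intro n x hx
  set w := (List.ofFn x).foldr (fun a w => ∑ i, a i • Y i w) f with hw
  obtain ⟨ℓ, hℓ1, hℓ2⟩ := exists_dual_vector'' ℝ (j w)
  set L : WeakDual ℝ E := StrongDual.toWeakDual ((C₁⁻¹) • ℓ) with hL
  have hLv : ∀ v, L v = C₁⁻¹ * ℓ v := fun v => rfl
  have hLB : L ∈ Bset R := by
    intro g v
    rw [hLv, abs_mul, abs_of_pos (inv_pos.2 hC₁0)]
    have h1 : |ℓ (R g v)| ≤ C₁ * ‖v‖ := by
      calc |ℓ (R g v)| = ‖ℓ (R g v)‖ := rfl
        _ ≤ ‖ℓ‖ * ‖R g v‖ := ℓ.le_opNorm _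
        _ ≤ 1 * ‖R g v‖ := mul_le_mul_of_nonneg_right hℓ1 (norm_nonneg _)
        _ ≤ C₀ * ‖v‖ := by rw [one_mul]; exact hR g v
        _ ≤ C₁ * ‖v‖ := mul_le_mul_of_nonneg_right (le_max_left _ _) (norm_nonneg _)
    calc C₁⁻¹ * |ℓ (R g v)| ≤ C₁⁻¹ * (C₁ * ‖v‖) := mul_le_mul_of_nonneg_left h1 (inv_pos.2 hC₁0).le
      _ = ‖v‖ := by field_simp
  have h1 := fold_le (Y := Y) (f := f) n x hx (lam j L)
  have h2 := h1.trans (hall n L hLB)
  rw [lam_apply, hLv, ← hw, hℓ2] at h2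
  have h3 : ‖j w‖ ^ 2 ≤ ((4 * D + C₁ * ‖j f‖) ^ (n + 1) * n.factorial) ^ 2 := by
    have h4 : ‖j w‖ ^ 2 ≤ C₁ ^ 2 * ((4 * D) ^ n * ((n.factorial : ℝ)) ^ 2 * ‖j f‖ ^ 2) := by
      have h5 : (C₁⁻¹ * (‖j w‖ : ℝ)) ^ 2 ≤ (4 * D) ^ n * ((n.factorial : ℝ)) ^ 2 * ‖j f‖ ^ 2 := by
        exact_mod_cast h2
      have h6 := mul_le_mul_of_nonneg_left h5 (sq_nonneg C₁)
      calc ‖j w‖ ^ 2 = C₁ ^ 2 * (C₁⁻¹ * ‖j w‖) ^ 2 := by field_simp
        _ ≤ _ := h6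
    refine h4.trans ?_
    set F : ℝ := (n.factorial : ℝ) with hF
    have hF0 : 0 ≤ F := Nat.cast_nonneg _
    set Q : ℝ := 4 * D + C₁ * ‖j f‖ with hQ
    have hjf : 0 ≤ C₁ * ‖j f‖ := by positivity
    have q1 : 4 * D ≤ Q ^ 2 := by nlinarith
    have q2 : C₁ * ‖j f‖ ≤ Q := by linarith
    have q3 : (4 * D) ^ n ≤ (Q ^ 2) ^ n := pow_le_pow_left₀ (by linarith) q1 n
    have q4 : (C₁ * ‖j f‖) ^ 2 ≤ Q ^ 2 := pow_le_pow_left₀ hjf q2 2
    calc C₁ ^ 2 * ((4 * D) ^ n * F ^ 2 * ‖j f‖ ^ 2) = (4 * D) ^ n * (C₁ * ‖j f‖) ^ 2 * F ^ 2 := by ring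
      _ ≤ (Q ^ 2) ^ n * Q ^ 2 * F ^ 2 := by
          apply mul_le_mul_of_nonneg_right _ (sq_nonneg F)
          exact mul_le_mul q3 q4 (sq_nonneg _) (by positivity)
      _ = (Q ^ (n + 1) * F) ^ 2 := by
          rw [← pow_succ, mul_pow, ← pow_mul, ← pow_mul, mul_comm 2 (n + 1)]
  exact le_of_sq_le_sq h3 (by positivity)

end Pool.Agent.Helper54.SG
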